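import Pool.Agent.TTC.StmtsD

set_option autoImplicit false

/-!
# Squad TTC, row FAM (all one-parameter families)
-/

namespace Pool.Agent.TTC.H92

open Polynomial NumberField Pool.Agent.SZT Pool.Agent.KDD

theorem fin_set (N : ℤ) (p : ℤ → Prop) : {c : ℤ | |c| ≤ N ∧ p c}.Finite := by
  apply (Set.finite_Icc (-N) N).subset
  rintro c ⟨hc, -⟩
  exact ⟨(abs_le.1 hc).1, (abs_le.1 hc).2⟩

theorem quin_eq (a : Fin 5 → ℤ) : quin a = qp (fun i => a i.castSucc) (a 4) := rfl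

theorem quin_monic (a : Fin 5 → ℤ) : (quin a).Monic := by
  unfold quin
  monicity!

theorem quin_natDegree (a : Fin 5 → ℤ) : (quin a).natDegree = 5 := by
  unfold quin
  compute_degree!

/-- values of small polynomials -/
theorem eval_le {k H : ℕ} (hH : 1 ≤ H) {P : ℤ[X]} (hP : Siz k H P) {t : ℤ} (ht : |t| ≤ H) :
    |P.eval t| ≤ (k + 1) * (H : ℤ) ^ (k + 1) := by
  obtain ⟨h1, h2⟩ := hP
  have hH1 : (1 : ℤ) ≤ H := by exact_mod_cast hH
  rw [Polynomial.eval_eq_sum_range' (n := k + 1) (by omega)]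
  refine (Finset.abs_sum_le_sum_abs _ _).trans ?_
  have h3 : ∀ i ∈ Finset.range (k + 1), |P.coeff i * t ^ i| ≤ (H : ℤ) ^ (k + 1) := by
    intro i hi
    rw [abs_mul, abs_pow]
    have h4 : |t| ^ i ≤ (H : ℤ) ^ k := by
      calc |t| ^ i ≤ (H : ℤ) ^ i := pow_le_pow_left₀ (abs_nonneg _) ht i
        _ ≤ (H : ℤ) ^ k := pow_le_pow_right₀ hH1 (by have := Finset.mem_range.1 hi; omega)
    calc |P.coeff i| * |t| ^ i ≤ (H : ℤ) * (H : ℤ) ^ k :=
          mul_le_mul (h2 i) h4 (by positivity) (by positivity)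
      _ = (H : ℤ) ^ (k + 1) := by ring
  refine (Finset.sum_le_sum h3).trans ?_
  rw [Finset.sum_const, Finset.card_range, nsmul_eq_mul]
  push_cast
  exact le_refl _

/-- The numerical inequality. -/
theorem num_ineq (d n k H : ℕ) (ε l r s : ℝ) (hε : 0 < ε) (h4 : 4 * (k + 1) ≤ H) (hn : n ≤ d)
    (hl : l ≤ (n : ℝ) * Real.log (4 * (((k + 1) * H ^ (k + 1) : ℕ) : ℝ)))
    (hr : (H : ℝ) ^ ε ≤ r) (hs : Real.log r ≤ s) :
    ε / ((k + 2) * (d + 1)) * l ≤ s := by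
  have hH1 : 1 ≤ H := by omega
  have hH0 : (0 : ℝ) < (H : ℝ) := by exact_mod_cast hH1
  have hH4 : (4 * ((k : ℝ) + 1)) ≤ (H : ℝ) := by exact_mod_cast h4
  have hk0 : (0 : ℝ) ≤ (k : ℝ) := Nat.cast_nonneg k
  have e1 : Real.log (4 * (((k + 1) * H ^ (k + 1) : ℕ) : ℝ)) =
      Real.log (4 * ((k : ℝ) + 1)) + ((k : ℝ) + 1) * Real.log H := by
    push_cast
    rw [← mul_assoc, Real.log_mul (by positivity) (by positivity), Real.log_pow]
    push_cast
    ring
  have e2 : Real.log (4 * ((k : ℝ) + 1)) ≤ Real.log H :=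
    Real.log_le_log (by positivity) hH4
  have e3 : 0 ≤ Real.log H := Real.log_nonneg (by exact_mod_cast hH1)
  have e4 : ε * Real.log H ≤ Real.log r := by
    rw [← Real.log_rpow hH0]
    exact Real.log_le_log (Real.rpow_pos_of_pos hH0 ε) hr
  have hnd : (n : ℝ) ≤ (d : ℝ) := by exact_mod_cast hn
  have hd0 : (0 : ℝ) ≤ (d : ℝ) := Nat.cast_nonneg d
  have e0 : 0 ≤ Real.log (4 * ((k : ℝ) + 1)) := Real.log_nonneg (by linarith)
  have e5 : l ≤ (d : ℝ) * (((k : ℝ) + 2) * Real.log H) := by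
    refine hl.trans ?_
    rw [e1]
    apply mul_le_mul hnd (by linarith) (by positivity) hd0
  have e6 : ε / (((k : ℝ) + 2) * (d + 1)) * l ≤
      ε / (((k : ℝ) + 2) * (d + 1)) * ((d : ℝ) * (((k : ℝ) + 2) * Real.log H)) :=
    mul_le_mul_of_nonneg_left e5 (by positivity)
  have e7 : ε / (((k : ℝ) + 2) * (d + 1)) * ((d : ℝ) * (((k : ℝ) + 2) * Real.log H)) ≤
      ε * Real.log H := by
    have h1 : ε / (((k : ℝ) + 2) * ((d : ℝ) + 1)) * ((d : ℝ) * (((k : ℝ) + 2) * Real.log H)) =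
        (ε * Real.log H) * ((d : ℝ) / (d + 1)) := by
      field_simp
    rw [h1]
    have h2 : (d : ℝ) / (d + 1) ≤ 1 := by
      rw [div_le_one (by positivity)]
      linarith
    have h3 : 0 ≤ ε * Real.log H := by positivity
    exact mul_le_of_le_one_right h3 h2
  linarith

theorem fam (hNAT : NatStmt) (hEXL : ExlStmt) (hCU2 : Cu2Stmt) (hBNF : BnfStmt) (hFAC : FacStmt)
    (hCN2 : Cn2Stmt) (hSQF : SqfStmt) (hPLC : PlcStmt) (hSPR : SprStmt)
    (hK : KDD.H18.KddPStatement) : FamStmt := by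
  intro d k δ hδ
  obtain ⟨A, hA⟩ := hBNF k
  obtain ⟨A1, hA1⟩ := hFAC A
  obtain ⟨A2, hA2⟩ : ∃ A2, A2 = 2 * A1 + 2 := ⟨_, rfl⟩
  obtain ⟨ε, C0, hε, hC0, hcnt⟩ := hCN2 A2 δ hδ
  obtain ⟨B, hB⟩ := hK d (ε / ((k + 2) * (d + 1))) (by positivity)
  refine ⟨B, C0 + A + (8 * (k + 1) + 1), by positivity, ?_⟩
  intro H F hH hF hsq hdb
  have hH1 : (1 : ℝ) ≤ (H : ℝ) := by exact_mod_cast hH
  have hHZ : (1 : ℤ) ≤ (H : ℤ) := by exact_mod_cast hH
  have hHδ : (1 : ℝ) ≤ (H : ℝ) ^ δ := Real.one_le_rpow hH1 hδ.le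
  have hk0 : (0 : ℝ) ≤ (k : ℝ) := Nat.cast_nonneg k
  have hA0 : (0 : ℝ) ≤ (A : ℝ) := Nat.cast_nonneg A
  rcases lt_or_ge H (4 * (k + 1)) with h4 | h4
  · have h1 : {t : ℤ | |t| ≤ (H : ℤ) ∧ ¬ Good d B (quin fun i => (F i).eval t)} ⊆
        ((Finset.Icc (-(H : ℤ)) H : Finset ℤ) : Set ℤ) := by
      rintro c ⟨hc, -⟩
      rw [Finset.coe_Icc]
      exact ⟨(abs_le.1 hc).1, (abs_le.1 hc).2⟩
    have h2 := Set.ncard_le_ncard h1 (Finset.finite_toSet _)
    rw [Set.ncard_coe_finset, Int.card_Icc] at h2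
    have h6 : {t : ℤ | |t| ≤ (H : ℤ) ∧ ¬ Good d B (quin fun i => (F i).eval t)}.ncard ≤
        8 * (k + 1) + 1 := by omega
    have h7 : ({t : ℤ | |t| ≤ (H : ℤ) ∧ ¬ Good d B (quin fun i => (F i).eval t)}.ncard : ℝ) ≤
        8 * ((k : ℝ) + 1) + 1 := by exact_mod_cast h6
    have h8 : 0 ≤ (C0 + A) * (H : ℝ) ^ δ := by positivity
    have h9 : 8 * ((k : ℝ) + 1) + 1 ≤ (8 * ((k : ℝ) + 1) + 1) * (H : ℝ) ^ δ :=
      le_mul_of_one_le_right (by positivity) hHδ
    rw [add_mul]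
    linarith
  · obtain ⟨t₀, ht₀, ht₀'⟩ := hdb
    obtain ⟨t₁, ht₁⟩ := hsq
    obtain ⟨m, hm, hEm⟩ := hEXL (fun i => aeval t₀ (F i)) ht₀'
    obtain ⟨D, hD⟩ : ∃ D, D = dr F := ⟨_, rfl⟩
    obtain ⟨E, hE⟩ : ∃ E, E = er m F := ⟨_, rfl⟩
    obtain ⟨hSD, hSE⟩ := hA H F hH hF
    have hSE' := hSE m hm
    rw [← hD] at hSD
    rw [← hE] at hSE'
    have hNATt : ∀ t : ℂ, dr (fun i => aeval t (F i)) = aeval t D ∧
        er m (fun i => aeval t (F i)) = aeval t E := by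
      intro t
      obtain ⟨-, h2, h3⟩ := hNAT.1 ℤ[X] ℂ (aeval t : ℤ[X] →ₐ[ℤ] ℂ).toRingHom F
      rw [hD, hE]
      exact ⟨h2, h3 m⟩
    have hD0 : D ≠ 0 := by
      intro h
      have h1 := (hNATt t₁).1
      rw [h, map_zero] at h1
      exact (hNAT.2.2 _).1 h1 ht₁
    have hDt : aeval t₀ D = 0 := by
      rw [← (hNATt t₀).1]
      exact (hNAT.2.2 _).2 ht₀
    have hEt : aeval t₀ E ≠ 0 := by
      rw [← (hNATt t₀).2]
      exact hEm
    obtain ⟨φ, ρ, hφD, hφ1, hφS, hρ1, hρA, hφE⟩ := hA1 H D E t₀ hH hSD hSE' hD0 hDt hEt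
    have hpow : (H : ℤ) ^ A1 ≤ (H : ℤ) ^ A2 := pow_le_pow_right₀ hHZ (by omega)
    have hpow0 : (0 : ℤ) < (H : ℤ) ^ A1 := by positivity
    have hA2Z : (A2 : ℤ) = 2 * A1 + 2 := by exact_mod_cast hA2
    have hA10 : (0 : ℤ) ≤ (A1 : ℤ) := by positivity
    have hφS2 : Siz A2 (A2 * (H : ℤ) ^ A2) φ := by
      refine ⟨hφS.1.trans (by omega), fun n => (hφS.2 n).trans ?_⟩
      exact mul_le_mul (by linarith) hpow hpow0.le (by positivity)
    have hn0 : (((2 * ρ : ℕ)) : ℤ) ≤ A2 * (H : ℤ) ^ A2 := by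
      push_cast
      calc 2 * (ρ : ℤ) ≤ 2 * (A1 * (H : ℤ) ^ A1) := by linarith
        _ = (2 * A1) * (H : ℤ) ^ A1 := by ring
        _ ≤ A2 * (H : ℤ) ^ A2 := mul_le_mul (by linarith) hpow hpow0.le (by positivity)
    have h5 := hcnt H φ (2 * ρ) hH hφ1 hφS2 (by omega) hn0
    have hsub : {t : ℤ | |t| ≤ (H : ℤ) ∧ ¬ Good d B (quin fun i => (F i).eval t)} ⊆
        {t : ℤ | |t| ≤ (H : ℤ) ∧ (φ.eval t = 0 ∨
          ((∏ p ∈ (φ.eval t).natAbs.primeFactors.filter (fun p => ¬ p ∣ 2 * ρ), p : ℕ) : ℝ)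
            < (H : ℝ) ^ ε)} ∪ (D.roots.toFinset : Set ℤ) := by
      rintro t ⟨ht, hbad⟩
      by_contra hcon
      rw [Set.mem_union, not_or] at hcon
      obtain ⟨hc1, hc2⟩ := hcon
      have hDt0 : D.eval t ≠ 0 := by
        intro h
        apply hc2
        rw [Finset.mem_coe, Multiset.mem_toFinset, Polynomial.mem_roots hD0]
        exact h
      have hc3 : φ.eval t ≠ 0 ∧ (H : ℝ) ^ ε ≤
          ((∏ p ∈ (φ.eval t).natAbs.primeFactors.filter (fun p => ¬ p ∣ 2 * ρ), p : ℕ) : ℝ) := by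
        by_contra h
        apply hc1
        refine ⟨ht, ?_⟩
        by_contra h'
        rw [not_or, not_lt] at h'
        exact h h'
      obtain ⟨hφt, hprod⟩ := hc3
      apply hbad
      obtain ⟨a, ha⟩ : ∃ a : Fin 5 → ℤ, a = fun i => (F i).eval t := ⟨_, rfl⟩
      rw [← ha]
      have hNa := hNAT.1 ℤ[X] ℤ (evalRingHom t) F
      have hdra : dr a = D.eval t := by
        rw [ha, hD]
        exact hNa.2.1
      have hera : er m a = E.eval t := by
        rw [ha, hE]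
        exact hNa.2.2 m
      refine ⟨?_, ?_⟩
      · rw [quin_eq]
        apply hSQF
        rw [← quin_eq, hNAT.2.1, hdra]
        exact hDt0
      intro K _ _ hfr Y hY x hx
      obtain ⟨P, hPd⟩ : ∃ P, P = (φ.eval t).natAbs.primeFactors.filter (fun p => ¬ p ∣ 2 * ρ) :=
        ⟨_, rfl⟩
      rw [← hPd] at hprod
      have hpr : ∀ p ∈ P, p.Prime ∧ (p : ℤ) ∣ dr a ∧ ¬ (p : ℤ) ∣ 2 * er m a := by
        intro p hp
        rw [hPd, Finset.mem_filter] at hp
        have h1 := Nat.prime_of_mem_primeFactors hp.1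
        have h2 : (p : ℤ) ∣ φ.eval t := Int.natCast_dvd.2 (Nat.dvd_of_mem_primeFactors hp.1)
        refine ⟨h1, ?_, ?_⟩
        · rw [hdra]
          exact h2.trans (Polynomial.eval_dvd hφD)
        · intro h3
          apply hp.2
          rcases (Nat.prime_iff_prime_int.1 h1).dvd_or_dvd h3 with h6 | h6
          · have h7 : p ∣ 2 := by exact_mod_cast h6
            exact h7.mul_right ρ
          · rw [hera] at h6
            exact (hφE t p h1 h2 h6).mul_left 2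
      obtain ⟨S, hS1, hS2⟩ := hPLC K P (fun p hp => (hpr p hp).1)
      have hmon : Y.f.Monic := by
        rw [hY]
        exact (quin_monic a).map _
      have hdeg : Y.f.natDegree = 5 := by
        rw [hY, (quin_monic a).natDegree_map, quin_natDegree]
      have hint : ∀ n, IsIntegral ℤ (Y.f.coeff n) := by
        intro n
        rw [hY, coeff_map]
        exact isIntegral_algebraMap
      have hSc : ∀ v ∈ S, CubeFree v.val Y.f ∧ v (discr Y.f) < 1 := by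
        intro v hv
        obtain ⟨p, hp, hvp⟩ := hS1 v hv
        obtain ⟨h1, h2, h3⟩ := hpr p hp
        obtain ⟨h4, h5⟩ := hCU2 K v a m p h1 hvp h3
        rw [hY]
        exact ⟨h4, h5 h2⟩
      have hlog : Real.log ((∏ p ∈ P, p : ℕ) : ℝ) = ∑ p ∈ P, Real.log p := by
        rw [Nat.cast_prod, Real.log_prod]
        intro p hp
        have := (hpr p hp).1.ne_zero
        exact_mod_cast this
      have hval : ∀ i, |a i| ≤ ((k : ℤ) + 1) * (H : ℤ) ^ (k + 1) := by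
        intro i
        rw [ha]
        exact eval_le hH (hF i) ht
      obtain ⟨M, hM⟩ : ∃ M : ℕ, M = (k + 1) * H ^ (k + 1) := ⟨_, rfl⟩
      have hMZ : (M : ℤ) = ((k : ℤ) + 1) * (H : ℤ) ^ (k + 1) := by
        rw [hM]
        push_cast
        ring
      have hM1 : 1 ≤ M := by
        rw [hM]
        exact Nat.mul_pos (Nat.succ_pos k) (Nat.pow_pos (by omega))
      have hM1Z : (1 : ℤ) ≤ M := by exact_mod_cast hM1
      have hineq : ε / ((k + 2) * (d + 1)) * lH Y.f ≤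
          ∑ v ∈ S, Real.log (Ideal.absNorm v.maximalIdeal.asIdeal) := by
        refine num_ineq d (Module.finrank ℚ K) k H ε _ _ _ hε h4 hfr ?_ hprod ?_
        · rw [hY, ← hM, quin_eq]
          refine hSPR K M _ _ hM1 ?_ ?_
          · intro i
            refine (hval i.castSucc).trans ?_
            rw [← hMZ]
            exact le_self_pow₀ hM1Z (by omega)
          · refine (hval 4).trans ?_
            rw [← hMZ]
            exact le_self_pow₀ hM1Z (by omega)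
        · rw [hlog]
          exact hS2
      exact hB K hfr Y hmon hdeg hint S hSc hineq x hx
    have h2 := Set.ncard_le_ncard hsub ((fin_set _ _).union (Finset.finite_toSet _))
    have h3 := h2.trans (Set.ncard_union_le _ _)
    have h6 : (D.roots.toFinset : Set ℤ).ncard ≤ A := by
      rw [Set.ncard_coe_finset]
      exact (Multiset.toFinset_card_le _).trans ((Polynomial.card_roots' D).trans hSD.1)
    have h7 : ({t : ℤ | |t| ≤ (H : ℤ) ∧ ¬ Good d B (quin fun i => (F i).eval t)}.ncard : ℝ) ≤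
        ({t : ℤ | |t| ≤ (H : ℤ) ∧ (φ.eval t = 0 ∨
          ((∏ p ∈ (φ.eval t).natAbs.primeFactors.filter (fun p => ¬ p ∣ 2 * ρ), p : ℕ) : ℝ)
            < (H : ℝ) ^ ε)}.ncard : ℝ) + A := by
      have := h3.trans (Nat.add_le_add_left h6 _)
      exact_mod_cast this
    have h8 : (A : ℝ) ≤ A * (H : ℝ) ^ δ := le_mul_of_one_le_right hA0 hHδ
    have h9 : 0 ≤ (8 * ((k : ℝ) + 1) + 1) * (H : ℝ) ^ δ := by positivity
    rw [add_mul, add_mul]
    linarith

end Pool.Agent.TTC.H92
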