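import Pool.Agent.TTC.StmtsE

/-!
# Row NDG of squad TTC (MP_160b6c_nt)
-/

set_option autoImplicit false

namespace Pool.Agent.TTC.H92

open Polynomial Pool.Agent.TTC

variable {m : ℕ}

/-- the coefficients beyond the degree vanish -/
theorem TD.zero_of_lt {N : ℕ} {P : (MvPolynomial (Fin m) ℂ)[X]} (h : TD N P) {j : ℕ}
    (hj : N < j) : P.coeff j = 0 := by
  by_contra h0
  have := h j h0
  omega

theorem TD.one : TD 0 (1 : (MvPolynomial (Fin m) ℂ)[X]) := by
  intro j hj
  rw [coeff_one] at hj ⊢
  by_cases h : j = 0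
  · subst h
    simp
  · rw [if_neg h] at hj
    exact absurd rfl hj

theorem TD.mul {N M : ℕ} {P Q : (MvPolynomial (Fin m) ℂ)[X]} (hP : TD N P) (hQ : TD M Q) :
    TD (N + M) (P * Q) := by
  classical
  intro k hk
  rw [coeff_mul] at hk ⊢
  obtain ⟨x, hx, hx0⟩ := Finset.exists_ne_zero_of_sum_ne_zero hk
  have hkNM : k ≤ N + M := by
    have h1 := hP x.1 (left_ne_zero_of_mul hx0)
    have h2 := hQ x.2 (right_ne_zero_of_mul hx0)
    have h3 := Finset.HasAntidiagonal.mem_antidiagonal.1 hx
    omega
  have hle : (∑ x ∈ Finset.HasAntidiagonal.antidiagonal k, P.coeff x.1 * Q.coeff x.2).totalDegree ≤ N + M - k := by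
    refine (MvPolynomial.totalDegree_finsetSum_le ?_)
    intro y hy
    by_cases hy0 : P.coeff y.1 * Q.coeff y.2 = 0
    · rw [hy0]
      simp
    · have h1 := hP y.1 (left_ne_zero_of_mul hy0)
      have h2 := hQ y.2 (right_ne_zero_of_mul hy0)
      have h3 := Finset.HasAntidiagonal.mem_antidiagonal.1 hy
      have h4 := MvPolynomial.totalDegree_mul (P.coeff y.1) (Q.coeff y.2)
      omega
  omega

theorem TD.pow {N : ℕ} {P : (MvPolynomial (Fin m) ℂ)[X]} (hP : TD N P) (n : ℕ) :
    TD (n * N) (P ^ n) := by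
  induction n with
  | zero => rw [Nat.zero_mul, pow_zero]; exact TD.one
  | succ n ih => rw [Nat.succ_mul, pow_succ]; exact TD.mul ih hP

theorem TD.sub {N : ℕ} {P Q : (MvPolynomial (Fin m) ℂ)[X]} (hP : TD N P) (hQ : TD N Q) :
    TD N (P - Q) := by
  intro j hj
  rw [coeff_sub] at hj ⊢
  have h := MvPolynomial.totalDegree_sub (P.coeff j) (Q.coeff j)
  by_cases h1 : P.coeff j = 0
  · rw [h1, zero_sub] at hj
    have h2 : Q.coeff j ≠ 0 := fun h => hj (by rw [h, neg_zero])
    rw [h1, MvPolynomial.totalDegree_zero, max_eq_right (Nat.zero_le _)] at h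
    have := hQ j h2
    rw [h1] 
    omega
  · have h3 := hP j h1
    by_cases h2 : Q.coeff j = 0
    · rw [h2, MvPolynomial.totalDegree_zero, max_eq_left (Nat.zero_le _)] at h
      rw [h2]
      omega
    · have h4 := hQ j h2
      rcases le_total (P.coeff j).totalDegree (Q.coeff j).totalDegree with h5 | h5
      · rw [max_eq_right h5] at h
        omega
      · rw [max_eq_left h5] at h
        omega

/-- division with remainder by a monic polynomial, with control of the total degree -/
theorem div_rem {n M : ℕ} {D : (MvPolynomial (Fin m) ℂ)[X]} (hD : TD n D) (hn : D.coeff n = 1)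
    (d : ℕ) : ∀ P : (MvPolynomial (Fin m) ℂ)[X], (∀ j, d ≤ j → P.coeff j = 0) → TD M P →
      ∃ Q r : (MvPolynomial (Fin m) ℂ)[X], P = D * Q + r ∧ (∀ j, n ≤ j → r.coeff j = 0) ∧ TD M r := by
  induction d with
  | zero =>
    intro P hP hM
    refine ⟨0, P, by ring, fun j _ => hP j (Nat.zero_le j), hM⟩
  | succ d ih =>
    intro P hP hM
    by_cases hdn : d + 1 ≤ n
    · exact ⟨0, P, by ring, fun j hj => hP j (hdn.trans hj), hM⟩
    · push Not at hdn
      have hnd : n ≤ d := by omega
      by_cases hc : P.coeff d = 0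
      · exact ih P (fun j hj => by
          rcases Nat.eq_or_lt_of_le hj with h | h
          · rw [← h]; exact hc
          · exact hP j h) hM
      · obtain ⟨c, hcd⟩ : ∃ c, c = P.coeff d := ⟨_, rfl⟩
        have hcoeff : ∀ j, (C c * (X ^ (d - n) * D)).coeff j =
            c * (if d - n ≤ j then D.coeff (j - (d - n)) else 0) := by
          intro j
          rw [coeff_C_mul, coeff_X_pow_mul']
        have hcM := hM d hc
        rw [← hcd] at hcM
        have hT : TD M (C c * (X ^ (d - n) * D)) := by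
          intro j hj
          rw [hcoeff] at hj ⊢
          by_cases hjd : d - n ≤ j
          · rw [if_pos hjd] at hj ⊢
            have h1 := hD _ (right_ne_zero_of_mul hj)
            have h2 := MvPolynomial.totalDegree_mul c (D.coeff (j - (d - n)))
            omega
          · rw [if_neg hjd, mul_zero] at hj
            exact absurd rfl hj
        obtain ⟨Q, r, h1, h2, h3⟩ := ih (P - C c * (X ^ (d - n) * D)) (by
          intro j hj
          rw [coeff_sub, hcoeff, if_pos (by omega)]
          rcases Nat.eq_or_lt_of_le hj with h | h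
          · rw [← h, ← hcd, show d - (d - n) = n by omega, hn, mul_one, sub_self]
          · rw [hP j h, TD.zero_of_lt hD (by omega), mul_zero, sub_zero]) (TD.sub hM hT)
        refine ⟨C c * X ^ (d - n) + Q, r, ?_, h2, h3⟩
        have h4 : P = (P - C c * (X ^ (d - n) * D)) + C c * (X ^ (d - n) * D) := by ring
        rw [h4, h1]
        ring

/-- a monic polynomial whose roots are roots of `e` divides a power of `e` -/
theorem dvd_pow_of_roots {p e : ℂ[X]} (hp : p.Monic) (h : ∀ s, p.eval s = 0 → e.eval s = 0) :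
    p ∣ e ^ p.natDegree := by
  have hs := IsAlgClosed.splits p
  have h1 := hs.eq_prod_roots_of_monic hp
  have h2 := hs.natDegree_eq_card_roots
  rw [h2]
  conv_lhs => rw [h1]
  have h3 : (p.roots.map fun _ => e).prod = e ^ p.roots.card := by
    rw [Multiset.map_const', Multiset.prod_replicate]
  rw [← h3]
  refine Multiset.prod_dvd_prod_of_dvd _ _ fun s hs => ?_
  rw [dvd_iff_isRoot]
  exact h s ((mem_roots hp.ne_zero).1 hs)

/-- **Row NDG** -/
theorem ndg : NdgStmt := by
  intro m n N D E l b₀ s₀ hl hDn hD hE h0 hE0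
  obtain ⟨D₁, hD₁⟩ : ∃ D₁ : (MvPolynomial (Fin m) ℂ)[X], D₁ = C (MvPolynomial.C l⁻¹) * D := ⟨_, rfl⟩
  have hlu : (MvPolynomial.C l⁻¹ : MvPolynomial (Fin m) ℂ) * MvPolynomial.C l = 1 := by
    rw [← map_mul, inv_mul_cancel₀ hl, map_one]
  have hcoef : ∀ j, D₁.coeff j = MvPolynomial.C l⁻¹ * D.coeff j := by
    intro j
    rw [hD₁, coeff_C_mul]
  have hn1 : D₁.coeff n = 1 := by rw [hcoef, hDn, hlu]
  have hT1 : TD n D₁ := by
    intro j hj
    rw [hcoef] at hj ⊢
    have h1 := hD j (right_ne_zero_of_mul hj)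
    have h2 := MvPolynomial.totalDegree_mul (MvPolynomial.C l⁻¹) (D.coeff j)
    rw [MvPolynomial.totalDegree_C] at h2
    omega
  have hev1 : ∀ b s, ev b s D₁ = l⁻¹ * ev b s D := by
    intro b s
    unfold ev
    rw [hD₁, Polynomial.map_mul, eval_mul, map_C, eval_C, MvPolynomial.eval_C]
  obtain ⟨Q, r, h1, h2, h3⟩ := div_rem hT1 hn1 ((E ^ n).natDegree + 1) (E ^ n)
    (fun j hj => coeff_eq_zero_of_natDegree_lt (by omega)) (TD.pow hE n)
  have hr : r ≠ 0 := by
    intro hr
    rw [hr, add_zero] at h1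
    have h4 : (ev b₀ s₀ E) ^ n = 0 := by
      have h5 : ev b₀ s₀ (E ^ n) = ev b₀ s₀ (D₁ * Q) := by rw [h1]
      unfold ev at h5 ⊢
      rw [Polynomial.map_pow, eval_pow, Polynomial.map_mul, eval_mul] at h5
      rw [h5]
      have h6 := hev1 b₀ s₀
      rw [h0, mul_zero] at h6
      unfold ev at h6
      rw [h6, zero_mul]
    exact pow_ne_zero n hE0 h4
  obtain ⟨j, hj⟩ : ∃ j, r.coeff j ≠ 0 := by
    by_contra hcon
    push Not at hcon
    exact hr (Polynomial.ext fun j => by rw [hcon j, coeff_zero])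
  refine ⟨r.coeff j, hj, ?_, ?_⟩
  · have := h3 j hj
    omega
  · intro b hb
    by_contra hcon
    push Not at hcon
    obtain ⟨p, hp⟩ : ∃ p, p = D₁.map (MvPolynomial.eval b) := ⟨_, rfl⟩
    have hpn : p.coeff n = 1 := by rw [hp, coeff_map, hn1, map_one]
    have hpz : ∀ j, n < j → p.coeff j = 0 := by
      intro j hj
      rw [hp, coeff_map, TD.zero_of_lt hT1 hj, map_zero]
    have hpd : p.natDegree = n := by
      apply le_antisymm
      · exact natDegree_le_iff_coeff_eq_zero.2 hpz
      · exact le_natDegree_of_ne_zero (by rw [hpn]; exact one_ne_zero)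
    have hpm : p.Monic := by
      unfold Monic leadingCoeff
      rw [hpd, hpn]
    have hdiv : p ∣ (E.map (MvPolynomial.eval b)) ^ p.natDegree := by
      apply dvd_pow_of_roots hpm
      intro s hs
      have h4 := hev1 b s
      unfold ev at h4
      rw [← hp, hs] at h4
      have h5 : ev b s D = 0 := by
        rcases mul_eq_zero.1 h4.symm with h | h
        · exact absurd h (inv_ne_zero hl)
        · exact h
      exact hcon s h5
    rw [hpd, ← Polynomial.map_pow, h1, Polynomial.map_add, Polynomial.map_mul, ← hp] at hdiv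
    have hdr : p ∣ r.map (MvPolynomial.eval b) := (dvd_add_right (dvd_mul_right _ _)).1 hdiv
    have hrz : r.map (MvPolynomial.eval b) = 0 := by
      by_contra hne
      have h6 := natDegree_le_of_dvd hdr hne
      rw [hpd] at h6
      have h7 : (r.map (MvPolynomial.eval b)).leadingCoeff ≠ 0 := leadingCoeff_ne_zero.2 hne
      apply h7
      unfold leadingCoeff
      rw [coeff_map, h2 _ h6, map_zero]
    apply hb
    have := congrArg (fun q => q.coeff j) hrz
    simpa [coeff_map] using this

end Pool.Agent.TTC.H92
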