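import Pool.Agent.TTC.StmtsG
import Pool.Agent.Helper52_TTC.BN6

/-!
Squad TTC (MP_160b6c_nt), row BN7: bounds for the resultants of a family of sextics.
-/

set_option autoImplicit false

namespace Pool.Agent.TTC.H92

open Polynomial Pool.Agent.TTC.H52
open Pool.Agent.TTC.H27 (siz_mono pw)

theorem gd_r6 (k m : ℕ) : Gd k fun F => r6 m F := by
  unfold r6
  refine cl_res (P := Gd k) (gd_const k) (fun _ _ h h' => gd_add h h')
    (fun _ _ h h' => gd_mul h h') (fun l => ?_) (fun l => ?_)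
  · exact gp_der (gp_sext k) l
  · exact gp_add _ _ (gp_der (gp_der (gp_sext k))) (gp_mul _ _ (gp_const k _) (gp_sext k)) l

/-- `6 a (x + j y) r` with the operations of an arbitrary ring -/
def hmul {R : Type} [CommRing R] (j : ℕ) (a x y r : R) : R := 6 * a * (x + (j : R) * y) * r

theorem e7_gen {R : Type} [CommRing R] (j m : ℕ) (a : Fin 7 → R) :
    e7 j m a = hmul j (a 0) ((crit a).coeff 1) ((crit a).coeff 2) (r6 m a) := rfl

theorem hmul_eq (j : ℕ) (a x y r : ℤ[X]) :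
    hmul j a x y r = C 6 * (a * ((x + C (j : ℤ) * y) * r)) := by
  have h1 : (C (j : ℤ) : ℤ[X]) = (j : ℤ[X]) := map_natCast C j
  have h2 : (C (6 : ℤ) : ℤ[X]) = 6 := map_ofNat C 6
  rw [h1, h2]
  unfold hmul
  rw [mul_assoc, mul_assoc]

theorem gd_hmul {k j : ℕ} {Φ Ψ Ξ : (Fin 7 → ℤ[X]) → ℤ[X]} (h1 : Gd k Φ) (h2 : Gd k Ψ)
    (h3 : Gd k Ξ) : Gd k fun F => hmul j (F 0) (Φ F) (Ψ F) (Ξ F) := by
  have h : (fun F : Fin 7 → ℤ[X] => hmul j (F 0) (Φ F) (Ψ F) (Ξ F)) = fun F =>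
      C 6 * (F 0 * ((Φ F + C (j : ℤ) * Ψ F) * Ξ F)) :=
    funext fun F => hmul_eq _ _ _ _ _
  rw [h]
  exact gd_mul (gd_const k _) (gd_mul (gd_var k 0) (gd_mul
    (gd_add h1 (gd_mul (gd_const k _) h2)) h3))

theorem gd_e7 (k j m : ℕ) : Gd k fun F => e7 j m F := by
  have h1 : (fun F : Fin 7 → ℤ[X] => e7 j m F) = fun F =>
      hmul j (F 0) ((crit F).coeff 1) ((crit F).coeff 2) (r6 m F) :=
    funext fun F => e7_gen j m F
  rw [h1]
  exact gd_hmul (gd_crit k 1) (gd_crit k 2) (gd_r6 k m)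

theorem bn7 : Bn7Stmt := by
  intro k
  obtain ⟨A, hA⟩ := gd_d6 k
  choose B hB using fun j m => gd_e7 k j m
  have hs : ∀ j ≤ 1, ∀ m ≤ 5, B j m ≤ ∑ j ∈ Finset.range 2, ∑ m ∈ Finset.range 6, B j m := by
    intro j hj m hm
    refine le_trans ?_ (Finset.single_le_sum
      (f := fun j => ∑ m ∈ Finset.range 6, B j m) (fun _ _ => Nat.zero_le _)
      (Finset.mem_range.2 (Nat.lt_succ_of_le hj)))
    exact Finset.single_le_sum (f := fun m => B j m) (fun _ _ => Nat.zero_le _)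
      (Finset.mem_range.2 (Nat.lt_succ_of_le hm))
  refine ⟨A + ∑ j ∈ Finset.range 2, ∑ m ∈ Finset.range 6, B j m, fun H F hH hF => ⟨?_, ?_⟩⟩
  · exact siz_mono (hA H F hH hF) (Nat.le_add_right _ _) (pw hH (Nat.le_add_right _ _))
  · intro j hj m hm
    have h := (hs j hj m hm).trans (Nat.le_add_left _ A)
    exact siz_mono (hB j m H F hH hF) h (pw hH h)

end Pool.Agent.TTC.H92
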